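import Mathlib

/-!
Gronwall's inequality in integral form, with integrable coefficients.
-/

set_option autoImplicit false

open MeasureTheory Set Filter Topology

namespace Pool.Agent.N327.AC

/-- The composition of a Lipschitz function with an absolutely continuous one. -/
theorem ac_comp {A h : ℝ → ℝ} {a b L : ℝ} (hA : AbsolutelyContinuousOnInterval A a b)
    (hL : 0 ≤ L) (hh : ∀ x ∈ uIcc a b, ∀ y ∈ uIcc a b, |h (A x) - h (A y)| ≤ L * |A x - A y|) :
    AbsolutelyContinuousOnInterval (fun x => h (A x)) a b := by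
  rw [absolutelyContinuousOnInterval_iff] at hA ⊢
  intro ε hε
  obtain ⟨δ, hδ, H⟩ := hA (ε / (L + 1)) (by positivity)
  refine ⟨δ, hδ, fun E hE hlt => ?_⟩
  have h1 := H E hE hlt
  have hmem : ∀ i ∈ Finset.range E.1, (E.2 i).1 ∈ uIcc a b ∧ (E.2 i).2 ∈ uIcc a b := hE.1
  have h2 : ∑ i ∈ Finset.range E.1, dist (h (A (E.2 i).1)) (h (A (E.2 i).2))
      ≤ L * ∑ i ∈ Finset.range E.1, dist (A (E.2 i).1) (A (E.2 i).2) := by
    rw [Finset.mul_sum]
    refine Finset.sum_le_sum fun i hi => ?_
    rw [Real.dist_eq, Real.dist_eq]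
    exact hh _ (hmem i hi).1 _ (hmem i hi).2
  have h3 : 0 ≤ ∑ i ∈ Finset.range E.1, dist (A (E.2 i).1) (A (E.2 i).2) :=
    Finset.sum_nonneg fun i _ => dist_nonneg
  have h4 : (L + 1) * (ε / (L + 1)) = ε := by field_simp
  calc ∑ i ∈ Finset.range E.1, dist (h (A (E.2 i).1)) (h (A (E.2 i).2))
      ≤ L * ∑ i ∈ Finset.range E.1, dist (A (E.2 i).1) (A (E.2 i).2) := h2
    _ ≤ (L + 1) * ∑ i ∈ Finset.range E.1, dist (A (E.2 i).1) (A (E.2 i).2) := by nlinarith
    _ < (L + 1) * (ε / (L + 1)) := mul_lt_mul_of_pos_left h1 (by linarith)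
    _ = ε := h4

/-- `e^{-x}` is Lipschitz on bounded sets. -/
theorem exp_lip {C x y : ℝ} (hx : |x| ≤ C) (hy : |y| ≤ C) :
    |Real.exp (-x) - Real.exp (-y)| ≤ Real.exp C * |x - y| := by
  have key : ∀ x y : ℝ, |x| ≤ C → |y| ≤ C → x ≤ y →
      |Real.exp (-x) - Real.exp (-y)| ≤ Real.exp C * |x - y| := by
    intro x y hx hy hxy
    have h1 : Real.exp (-y) ≤ Real.exp (-x) := Real.exp_le_exp.2 (by linarith)
    rw [abs_of_nonneg (by linarith), abs_of_nonpos (by linarith)]
    have h2 : Real.exp (-y) = Real.exp (-x) * Real.exp (-(y - x)) := by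
      rw [← Real.exp_add]; congr 1; ring
    have h3 : 1 - (y - x) ≤ Real.exp (-(y - x)) := by
      have := Real.add_one_le_exp (-(y - x))
      linarith
    have h4 : Real.exp (-x) ≤ Real.exp C := Real.exp_le_exp.2 (by
      have := neg_abs_le x
      linarith)
    have h5 : 0 < Real.exp (-x) := Real.exp_pos _
    rw [h2]
    nlinarith
  rcases le_total x y with h | h
  · exact key x y hx hy h
  · rw [abs_sub_comm, abs_sub_comm x y]
    exact key y x hy hx h

/-- **Gronwall's inequality with a source.** -/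
theorem gron {r t c : ℝ} (hrt : r ≤ t) {f a σ : ℝ → ℝ} (hf : IntervalIntegrable f volume r t)
    (ha : IntervalIntegrable a volume r t) (hσ : IntervalIntegrable σ volume r t)
    (h : ∀ᵐ s ∂(volume.restrict (Ioc r t)), f s ≤ a s * (c + ∫ x in r..s, f x) + σ s) :
    c + ∫ x in r..t, f x ≤ Real.exp (∫ x in r..t, a x)
      * (c + ∫ s in r..t, Real.exp (-∫ x in r..s, a x) * σ s) := by
  set Y : ℝ → ℝ := fun s => c + ∫ x in r..s, f x with hY
  set A : ℝ → ℝ := fun s => ∫ x in r..s, a x with hA
  have hFac : AbsolutelyContinuousOnInterval (fun s => ∫ x in r..s, f x) r t :=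
    hf.absolutelyContinuousOnInterval_intervalIntegral (c := r) (by simp)
  have hAac : AbsolutelyContinuousOnInterval A r t :=
    ha.absolutelyContinuousOnInterval_intervalIntegral (c := r) (by simp)
  have hcac : AbsolutelyContinuousOnInterval (fun _ : ℝ => c) r t := by
    have : LipschitzOnWith 0 (fun _ : ℝ => c) (uIcc r t) := fun x _ y _ => by simp
    exact this.absolutelyContinuousOnInterval
  have hYac : AbsolutelyContinuousOnInterval Y r t := hcac.add hFac
  obtain ⟨C, hC⟩ := hAac.exists_bound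
  have hEac : AbsolutelyContinuousOnInterval (fun s => Real.exp (-A s)) r t := by
    refine ac_comp (h := fun x => Real.exp (-x)) (L := Real.exp C) hAac (Real.exp_pos C).le ?_
    intro x hx y hy
    exact exp_lip (by simpa using hC x hx) (by simpa using hC y hy)
  have hI := (hEac.mul hYac).integral_deriv_eq_sub
  have hder : ∀ᵐ s ∂(volume.restrict (Ioc r t)),
      deriv (fun x => Real.exp (-A x) * Y x) s = Real.exp (-A s) * (f s - a s * Y s) := by
    rw [ae_restrict_iff' measurableSet_Ioc]
    filter_upwards [hf.ae_hasDerivAt_integral, ha.ae_hasDerivAt_integral] with s h1 h2 hs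
    have hs' : s ∈ uIcc r t := by
      rw [uIcc_of_le hrt]
      exact Ioc_subset_Icc_self hs
    have d1 : HasDerivAt Y (f s) s := by
      have := (h1 hs' r (by simp)).const_add c
      exact this
    have d2 : HasDerivAt A (a s) s := h2 hs' r (by simp)
    have d3 := (d2.neg.exp).mul d1
    refine (d3.deriv).trans ?_
    simp only [Pi.neg_apply]
    ring
  have hEc : ContinuousOn (fun s => Real.exp (-A s)) (uIcc r t) := hEac.continuousOn
  have hYc : ContinuousOn Y (uIcc r t) := hYac.continuousOn
  have hle : ∫ s in r..t, deriv (fun x => Real.exp (-A x) * Y x) s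
      ≤ ∫ s in r..t, Real.exp (-A s) * σ s := by
    have e1 : ∫ s in r..t, deriv (fun x => Real.exp (-A x) * Y x) s
        = ∫ s in r..t, Real.exp (-A s) * (f s - a s * Y s) := by
      rw [intervalIntegral.integral_of_le hrt, intervalIntegral.integral_of_le hrt]
      exact integral_congr_ae hder
    rw [e1, intervalIntegral.integral_of_le hrt, intervalIntegral.integral_of_le hrt]
    refine integral_mono_ae ?_ ?_ ?_
    · have i1 : IntervalIntegrable (fun s => Real.exp (-A s) * (f s - a s * Y s)) volume r t :=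
        (hf.sub (ha.mul_continuousOn hYc)).continuousOn_mul hEc
      exact (intervalIntegrable_iff_integrableOn_Ioc_of_le hrt).1 i1
    · have i2 : IntervalIntegrable (fun s => Real.exp (-A s) * σ s) volume r t :=
        hσ.continuousOn_mul hEc
      exact (intervalIntegrable_iff_integrableOn_Ioc_of_le hrt).1 i2
    · filter_upwards [h] with s hs
      have : f s - a s * Y s ≤ σ s := by simp only [hY]; linarith
      exact mul_le_mul_of_nonneg_left this (Real.exp_pos _).le
  have e2 : (fun x => Real.exp (-A x) * Y x) = (fun s => Real.exp (-A s)) * Y := rfl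
  rw [e2, hI] at hle
  simp only [Pi.mul_apply] at hle
  have e3 : A r = 0 := by simp [hA]
  have e4 : Y r = c := by simp [hY]
  rw [e3, e4, neg_zero, Real.exp_zero, one_mul] at hle
  have h5 : 0 < Real.exp (A t) := Real.exp_pos _
  have h6 : Real.exp (A t) * Real.exp (-A t) = 1 := by rw [← Real.exp_add]; simp
  show Y t ≤ Real.exp (A t) * (c + ∫ s in r..t, Real.exp (-A s) * σ s)
  calc Y t = Real.exp (A t) * (Real.exp (-A t) * Y t) := by rw [← mul_assoc, h6, one_mul]
    _ ≤ Real.exp (A t) * (c + ∫ s in r..t, Real.exp (-A s) * σ s) :=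
        mul_le_mul_of_nonneg_left (by linarith) h5.le

end Pool.Agent.N327.AC
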