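import Pool.Agent.Y303.RA.Boot
import Pool.Agent.N327.AC.Gron

/-!
The time derivative before a first singular time, with a source term.
-/

set_option autoImplicit false
set_option linter.unusedSectionVars false

open MeasureTheory Set Filter Topology
open scoped InnerProductSpace

namespace Pool.Agent.N327.AC

open Pool.Agent.W795.TQ
open Pool.Agent.Y303.RA
open H772R2.NSR (Frame prim_cont memLp_ii ae_deriv_of_prim)
open H772R2.NSG (ii_of_int)

variable {H K : Type} [NormedAddCommGroup H] [InnerProductSpace ℝ H] [CompleteSpace H]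
  [NormedAddCommGroup K] [InnerProductSpace ℝ K] [CompleteSpace K]
  {W : Submodule ℝ (H × K)} {m : H → K} {C ν T τ : ℝ} {F F1 : ℝ → K} {v v1 : ℝ → H}
  {z z1 : ℝ → K}

/-- the bound of the derivative, with a source -/
theorem bound_src (Fr : Frame W m C) (hm : Hom W m) (hν : 0 < ν) (hτT : τ ≤ T)
    (hF : FH T F F1) (hS : ∀ t ∈ Ioo 0 τ, Str W m ν t F v v1 z z1) {r : ℝ} (hr : r ∈ Ioo 0 τ)
    (dr : HasDerivAt v (v1 r) r) {δ : ℝ} (hδ : 0 < δ) {Λ S : ℝ → ℝ}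
    (hΛ0 : ∀ᵐ t ∂(volume.restrict (Ioo r τ)), 0 ≤ Λ t)
    (hΛi : ∀ t ∈ Ioo r τ, IntegrableOn Λ (Ioc r t))
    (hSi : ∀ t ∈ Ioo r τ, IntegrableOn S (Ioc r t))
    (hΛ : ∀ᵐ t ∂(volume.restrict (Ioo r τ)),
      -⟪m (v1 t), z t⟫_ℝ ≤ (1 - δ) * ν * ‖z1 t‖ ^ 2 + Λ t * ‖v1 t‖ ^ 2 + S t) :
    ∀ᵐ t ∂(volume.restrict (Ioo r τ)), ‖v1 t‖ ^ 2 ≤ Real.exp (∫ s in r..t, 2 * Λ s)
      * (‖v1 r‖ ^ 2 + ∫ s in r..t, Real.exp (-∫ x in r..s, 2 * Λ x)
        * (‖F1 s‖ ^ 2 / (2 * δ * ν) + 2 * S s)) := by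
  obtain ⟨hi, he⟩ := energy_ae Fr hm hν.le hτT hF hS hr dr
  have hF2 : Integrable (fun s => ‖F1 s‖ ^ 2) (volume.restrict (Ioc 0 T)) :=
    (memLp_two_iff_integrable_sq_norm hF.memLp.aestronglyMeasurable).mp hF.memLp
  set f : ℝ → ℝ := fun s => ⟪F1 s, z1 s⟫_ℝ - ν * ‖z1 s‖ ^ 2 - ⟪m (v1 s), z s⟫_ℝ with hf
  filter_upwards [he, ae_restrict_mem measurableSet_Ioo] with t ht htI
  have htT : t ≤ T := htI.2.le.trans hτT
  have hrt : r ≤ t := htI.1.le
  have hss : Ioc r t ⊆ Ioo r τ := fun x hx => ⟨hx.1, hx.2.trans_lt htI.2⟩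
  have hFi : IntegrableOn (fun s => ‖F1 s‖ ^ 2) (Ioc r t) :=
    hF2.mono_measure (Measure.restrict_mono (Ioc_subset_Ioc hr.1.le htT) le_rfl)
  have g := gron (c := ‖v1 r‖ ^ 2) hrt (f := fun s => 2 * f s) (a := fun s => 2 * Λ s)
    (σ := fun s => ‖F1 s‖ ^ 2 / (2 * δ * ν) + 2 * S s)
    ((intervalIntegrable_iff_integrableOn_Ioc_of_le hrt).2 ((hi t htI).const_mul 2))
    ((intervalIntegrable_iff_integrableOn_Ioc_of_le hrt).2 ((hΛi t htI).const_mul 2))
    ((intervalIntegrable_iff_integrableOn_Ioc_of_le hrt).2 (by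
      have := (hFi.div_const (2 * δ * ν)).add ((hSi t htI).const_mul 2)
      exact this)) (by
    filter_upwards [ae_mono (Measure.restrict_mono hss le_rfl) hΛ,
      ae_mono (Measure.restrict_mono hss le_rfl) hΛ0,
      ae_mono (Measure.restrict_mono hss le_rfl) he] with s hs h0 hs2
    have k1 : ⟪F1 s, z1 s⟫_ℝ ≤ ‖F1 s‖ * ‖z1 s‖ := real_inner_le_norm _ _
    have k2 : 2 * (‖F1 s‖ * ‖z1 s‖) ≤ 2 * (δ * ν * ‖z1 s‖ ^ 2) + ‖F1 s‖ ^ 2 / (2 * δ * ν) := by
      have : 0 ≤ (2 * δ * ν * ‖z1 s‖ - ‖F1 s‖) ^ 2 / (2 * δ * ν) := by positivity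
      have e : (2 * δ * ν * ‖z1 s‖ - ‖F1 s‖) ^ 2 / (2 * δ * ν)
          = 2 * (δ * ν * ‖z1 s‖ ^ 2) - 2 * (‖F1 s‖ * ‖z1 s‖) + ‖F1 s‖ ^ 2 / (2 * δ * ν) := by
        field_simp; ring
      linarith
    have e3 : ∫ x in r..s, 2 * f x = 2 * ∫ x in r..s, f x := by
      rw [intervalIntegral.integral_const_mul]
    rw [e3, ← hs2]
    simp only [hf]
    nlinarith)
  have e4 : ∫ x in r..t, 2 * f x = 2 * ∫ x in r..t, f x := by
    rw [intervalIntegral.integral_const_mul]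
  rw [e4, ← ht] at g
  exact g

/-- `∫_r^t γ / (τ - s) ds` -/
theorem int_log {γ r t : ℝ} (hrt : r ≤ t) (ht : t < τ) :
    IntervalIntegrable (fun s => γ / (τ - s)) volume r t ∧
    ∫ s in r..t, γ / (τ - s) = γ * (Real.log (τ - r) - Real.log (τ - t)) := by
  have hc : ContinuousOn (fun s => γ / (τ - s)) (uIcc r t) := by
    rw [uIcc_of_le hrt]
    refine continuousOn_const.div (continuous_const.sub continuous_id).continuousOn fun x hx => ?_
    have : 0 < τ - x := by linarith [hx.2]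
    exact this.ne'
  refine ⟨hc.intervalIntegrable, ?_⟩
  have hder : ∀ x ∈ uIcc r t, HasDerivAt (fun s => -(γ * Real.log (τ - s))) (γ / (τ - x)) x := by
    intro x hx
    rw [uIcc_of_le hrt] at hx
    have hp : 0 < τ - x := by linarith [hx.2]
    refine ((((hasDerivAt_id x).const_sub τ).log hp.ne').const_mul γ).neg.congr_deriv ?_
    simp only [id]
    ring
  rw [intervalIntegral.integral_eq_sub_of_hasDerivAt hder hc.intervalIntegrable]
  ring

/-- `∫_r^t (τ - s) ^ p ds ≤ (τ - t) ^ (p + 1) / (-(p + 1))` for `p < -1` -/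
theorem int_pow {p r t : ℝ} (hp : p < -1) (hrt : r ≤ t) (ht : t < τ) :
    IntervalIntegrable (fun s => (τ - s) ^ p) volume r t ∧
    ∫ s in r..t, (τ - s) ^ p ≤ (τ - t) ^ (p + 1) / (-(p + 1)) := by
  have hc : ContinuousOn (fun s => (τ - s) ^ p) (uIcc r t) := by
    rw [uIcc_of_le hrt]
    refine ContinuousOn.rpow_const (continuous_const.sub continuous_id).continuousOn fun x hx => ?_
    have : 0 < τ - x := by linarith [hx.2]
    exact Or.inl this.ne'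
  refine ⟨hc.intervalIntegrable, ?_⟩
  have hq : p + 1 ≠ 0 := by linarith
  have hder : ∀ x ∈ uIcc r t, HasDerivAt (fun s => -((τ - s) ^ (p + 1) / (p + 1)))
      ((τ - x) ^ p) x := by
    intro x hx
    rw [uIcc_of_le hrt] at hx
    have hp : 0 < τ - x := by linarith [hx.2]
    have h1 : HasDerivAt (fun s => τ - s) (-1) x := (hasDerivAt_id x).const_sub τ
    have h2 := (h1.rpow_const (p := p + 1) (Or.inl hp.ne')).div_const (p + 1)
    refine h2.neg.congr_deriv ?_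
    rw [add_sub_cancel_right]
    field_simp
  rw [intervalIntegral.integral_eq_sub_of_hasDerivAt hder hc.intervalIntegrable]
  have h3 : 0 ≤ (τ - r) ^ (p + 1) / (-(p + 1)) := by
    have : 0 < -(p + 1) := by linarith
    have h4 : 0 ≤ (τ - r) ^ (p + 1) := Real.rpow_nonneg (by linarith) _
    positivity
  have e : -((τ - t) ^ (p + 1) / (p + 1)) - -((τ - r) ^ (p + 1) / (p + 1))
      = (τ - t) ^ (p + 1) / (-(p + 1)) - (τ - r) ^ (p + 1) / (-(p + 1)) := by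
    rw [div_neg, div_neg]
  rw [e]
  linarith

/-- **The criterion in the abstract frame.** -/
theorem core (Fr : Frame W m C) (hm : Hom W m) (hν : 0 < ν) (hτ : 0 < τ) (hτT : τ ≤ T)
    (hF : FH T F F1) (hS : ∀ t ∈ Ioo 0 τ, Str W m ν t F v v1 z z1) {κ₀ : ℝ} (hκ : 0 < κ₀)
    (hrate : ∀ t0 < τ, ¬ ∀ᵐ t ∂(volume.restrict (Ioo t0 τ)),
      ‖v1 t‖ ≤ κ₀ * ν ^ (5 / 4 : ℝ) * (τ - t) ^ (-(3 / 4) : ℝ))
    {δ γ σ t1 : ℝ} (hδ : 0 < δ) (hγ0 : 0 ≤ γ) (hγ : γ < 3 / 4) (hσ0 : 0 ≤ σ)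
    (hσ : 8 * σ ≤ κ₀ ^ 2 * ν ^ (5 / 2 : ℝ) * (3 / 2 - 2 * γ)) (ht1 : t1 < τ) {Λ : ℝ → ℝ}
    (hΛ0 : ∀ t, 0 ≤ Λ t) (hΛi : IntegrableOn Λ (Ioo t1 τ))
    (hyp : ∀ᵐ t ∂(volume.restrict (Ioo t1 τ)), -⟪m (v1 t), z t⟫_ℝ ≤
      (1 - δ) * ν * ‖z1 t‖ ^ 2 + (γ / (τ - t) + Λ t) * ‖v1 t‖ ^ 2
        + σ * (τ - t) ^ (-(5 / 2) : ℝ)) : False := by
  have hq : 0 < 3 / 2 - 2 * γ := by linarith
  -- a time after which the integral of `Λ` is small
  obtain ⟨s0, hs0, hs0I⟩ : ∃ s0 ∈ Ico (max t1 0) τ, ∀ r ∈ Ioo s0 τ, ∀ t ∈ Ioo r τ,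
      ∫ s in r..t, Λ s ≤ Real.log 2 / 2 := by
    have hl2 : 0 < Real.log 2 / 2 := by
      have := Real.log_pos (by norm_num : (1 : ℝ) < 2)
      positivity
    set a0 := max t1 0 with ha0
    have ha0τ : a0 < τ := max_lt ht1 hτ
    have hIoo : IntegrableOn Λ (Ioo a0 τ) := hΛi.mono_set (Ioo_subset_Ioo_left (le_max_left _ _))
    have hII : IntervalIntegrable Λ volume a0 τ := by
      rw [intervalIntegrable_iff_integrableOn_Ioo_of_le ha0τ.le]
      exact hIoo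
    have hcont := intervalIntegral.continuousOn_primitive_interval
      (by rwa [uIcc_of_le ha0τ.le, integrableOn_Icc_iff_integrableOn_Ioo] :
        IntegrableOn Λ (uIcc a0 τ) volume)
    rw [uIcc_of_le ha0τ.le] at hcont
    have hlim := (hcont τ ⟨ha0τ.le, le_rfl⟩)
    have hev : ∀ᶠ x in 𝓝[Icc a0 τ] τ, (∫ s in a0..τ, Λ s) - Real.log 2 / 2
        < ∫ s in a0..x, Λ s := hlim.eventually (lt_mem_nhds (by linarith))
    rw [eventually_nhdsWithin_iff] at hev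
    obtain ⟨ε, hε, hball⟩ := Metric.eventually_nhds_iff.1 hev
    refine ⟨max a0 (τ - ε / 2), ⟨le_max_left _ _, max_lt ha0τ (by linarith)⟩, ?_⟩
    intro r hr t ht
    have hr0 : a0 < r := (le_max_left _ _).trans_lt hr.1
    have hrε : τ - ε / 2 < r := (le_max_right _ _).trans_lt hr.1
    have h1 := hball (y := r) (by
      rw [Real.dist_eq, abs_of_neg (by linarith [hr.2])]
      linarith) ⟨hr0.le, hr.2.le⟩
    have hi1 : IntervalIntegrable Λ volume a0 r := hII.mono_set (by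
      rw [uIcc_of_le hr0.le, uIcc_of_le ha0τ.le]
      exact Icc_subset_Icc_right hr.2.le)
    have hi2 : IntervalIntegrable Λ volume r τ := hII.mono_set (by
      rw [uIcc_of_le hr.2.le, uIcc_of_le ha0τ.le]
      exact Icc_subset_Icc_left hr0.le)
    have h2 := intervalIntegral.integral_add_adjacent_intervals hi1 hi2
    have h3 : ∫ s in r..t, Λ s ≤ ∫ s in r..τ, Λ s := by
      rw [intervalIntegral.integral_of_le ht.1.le, intervalIntegral.integral_of_le hr.2.le]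
      refine setIntegral_mono_set ?_ (Eventually.of_forall hΛ0)
        (Ioc_subset_Ioc_right ht.2.le).eventuallyLE
      exact (intervalIntegrable_iff_integrableOn_Ioc_of_le hr.2.le).1 hi2
    linarith
  have hs00 : 0 ≤ s0 := (le_max_right _ _).trans hs0.1
  have hs01 : t1 ≤ s0 := (le_max_left _ _).trans hs0.1
  obtain ⟨r, hr, dr⟩ := exists_diff hτ hS (s := s0) ⟨hs00, hs0.2⟩
  have hr0 : r ∈ Ioo 0 τ := ⟨hs00.trans_lt hr.1, hr.2⟩
  have hrt1 : t1 < r := hs01.trans_lt hr.1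
  set a := τ - r with ha
  have ha0 : 0 < a := by rw [ha]; linarith [hr.2]
  -- the coefficients
  have hΛr : ∀ t ∈ Ioo r τ, IntegrableOn Λ (Ioc r t) := fun t ht =>
    hΛi.mono_set fun x hx => ⟨hrt1.trans hx.1, hx.2.trans_lt ht.2⟩
  have hL : ∀ t ∈ Ioo r τ, IntegrableOn (fun s => γ / (τ - s) + Λ s) (Ioc r t) := fun t ht =>
    ((intervalIntegrable_iff_integrableOn_Ioc_of_le ht.1.le).1 (int_log ht.1.le ht.2).1).add
      (hΛr t ht)
  have hpw : ∀ t ∈ Ioo r τ, IntegrableOn (fun s => σ * (τ - s) ^ (-(5 / 2) : ℝ)) (Ioc r t) :=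
    fun t ht => ((intervalIntegrable_iff_integrableOn_Ioc_of_le ht.1.le).1
      (int_pow (p := -(5 / 2)) (by norm_num) ht.1.le ht.2).1).const_mul σ
  have hint : ∀ t ∈ Ico r τ, ∫ s in r..t, 2 * (γ / (τ - s) + Λ s)
      = 2 * γ * (Real.log a - Real.log (τ - t)) + 2 * ∫ s in r..t, Λ s := by
    intro t ht
    obtain ⟨i1, i2⟩ := int_log (γ := γ) ht.1 ht.2
    have i3 : IntervalIntegrable Λ volume r t := by
      rcases eq_or_lt_of_le ht.1 with h | h
      · rw [h]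
      · exact (intervalIntegrable_iff_integrableOn_Ioc_of_le ht.1).2 (hΛr t ⟨h, ht.2⟩)
    rw [intervalIntegral.integral_const_mul, intervalIntegral.integral_add i1 i3, i2]
    ring
  have hΛn : ∀ t, r ≤ t → 0 ≤ ∫ s in r..t, Λ s := fun t ht =>
    intervalIntegral.integral_nonneg ht fun s _ => hΛ0 s
  -- the exponentials
  have hE1 : ∀ t ∈ Ioo r τ, Real.exp (∫ s in r..t, 2 * (γ / (τ - s) + Λ s))
      ≤ 2 * (a ^ (2 * γ) * (τ - t) ^ (-(2 * γ))) := by
    intro t ht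
    have hp : 0 < τ - t := by linarith [ht.2]
    have h1 := hs0I r ⟨hr.1, hr.2⟩ t ht
    rw [hint t ⟨ht.1.le, ht.2⟩, Real.rpow_def_of_pos ha0, Real.rpow_def_of_pos hp, ← Real.exp_add]
    have h2 : (2 : ℝ) = Real.exp (Real.log 2) := (Real.exp_log (by norm_num)).symm
    calc Real.exp (2 * γ * (Real.log a - Real.log (τ - t)) + 2 * ∫ s in r..t, Λ s)
        ≤ Real.exp (Real.log 2 + (Real.log a * (2 * γ) + Real.log (τ - t) * -(2 * γ))) :=
          Real.exp_le_exp.2 (by nlinarith)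
      _ = _ := by rw [Real.exp_add, ← h2]
  have hE2 : ∀ t ∈ Ico r τ, Real.exp (-∫ s in r..t, 2 * (γ / (τ - s) + Λ s))
      ≤ a ^ (-(2 * γ)) * (τ - t) ^ (2 * γ) := by
    intro t ht
    have hp : 0 < τ - t := by linarith [ht.2]
    rw [hint t ht, Real.rpow_def_of_pos ha0, Real.rpow_def_of_pos hp, ← Real.exp_add]
    have := hΛn t ht.1
    exact Real.exp_le_exp.2 (by nlinarith)
  have hE3 : ∀ t ∈ Ico r τ, Real.exp (-∫ s in r..t, 2 * (γ / (τ - s) + Λ s)) ≤ 1 := by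
    intro t ht
    rw [Real.exp_le_one_iff, neg_nonpos]
    refine intervalIntegral.integral_nonneg ht.1 fun s hs => ?_
    have hp : 0 < τ - s := by linarith [hs.2, ht.2]
    have := hΛ0 s
    positivity
  have hae := bound_src Fr hm hν hτT hF hS hr0 dr hδ (Λ := fun s => γ / (τ - s) + Λ s)
    (S := fun s => σ * (τ - s) ^ (-(5 / 2) : ℝ)) (by
      filter_upwards [ae_restrict_mem measurableSet_Ioo] with t ht
      have hp : 0 < τ - t := by linarith [ht.2]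
      have := hΛ0 t
      positivity) hL hpw
    (ae_mono (Measure.restrict_mono (Ioo_subset_Ioo_left hrt1.le) le_rfl) hyp)
  have hF2 : Integrable (fun s => ‖F1 s‖ ^ 2) (volume.restrict (Ioc 0 T)) :=
    (memLp_two_iff_integrable_sq_norm hF.memLp.aestronglyMeasurable).mp hF.memLp
  set I := ∫ s in (0 : ℝ)..T, ‖F1 s‖ ^ 2 with hI
  have hI0 : 0 ≤ I := intervalIntegral.integral_nonneg (by linarith [hr0.1]) fun s _ => by positivity
  set C0 := ‖v1 r‖ ^ 2 + I / (2 * δ * ν) with hC0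
  have hC00 : 0 ≤ C0 := by positivity
  -- the bound
  have hbound : ∀ᵐ t ∂(volume.restrict (Ioo r τ)), ‖v1 t‖ ^ 2
      ≤ 2 * C0 * a ^ (2 * γ) * (τ - t) ^ (-(2 * γ))
        + 4 * σ / (3 / 2 - 2 * γ) * (τ - t) ^ (-(3 / 2) : ℝ) := by
    filter_upwards [hae, ae_restrict_mem measurableSet_Ioo] with t ht htI
    have hp : 0 < τ - t := by linarith [htI.2]
    have hrt := htI.1.le
    have htT : t ≤ T := htI.2.le.trans hτT
    have hFi : IntegrableOn (fun s => ‖F1 s‖ ^ 2) (Ioc r t) :=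
      hF2.mono_measure (Measure.restrict_mono (Ioc_subset_Ioc hr0.1.le htT) le_rfl)
    obtain ⟨p1, p2⟩ := int_pow (τ := τ) (p := 2 * γ - 5 / 2) (by linarith) hrt htI.2
    have hJ : ∫ s in r..t, Real.exp (-∫ x in r..s, 2 * (γ / (τ - x) + Λ x))
        * (‖F1 s‖ ^ 2 / (2 * δ * ν) + 2 * (σ * (τ - s) ^ (-(5 / 2) : ℝ)))
        ≤ I / (2 * δ * ν) + 2 * σ * a ^ (-(2 * γ)) *
          ((τ - t) ^ (2 * γ - 5 / 2 + 1) / (-(2 * γ - 5 / 2 + 1))) := by
      have i1 : IntegrableOn (fun s => ‖F1 s‖ ^ 2 / (2 * δ * ν)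
          + 2 * σ * a ^ (-(2 * γ)) * (τ - s) ^ (2 * γ - 5 / 2)) (Ioc r t) :=
        (hFi.div_const _).add
          (((intervalIntegrable_iff_integrableOn_Ioc_of_le hrt).1 p1).const_mul _)
      have hs1 : ∫ s in Ioc r t, (‖F1 s‖ ^ 2 / (2 * δ * ν)
          + 2 * σ * a ^ (-(2 * γ)) * (τ - s) ^ (2 * γ - 5 / 2))
          ≤ I / (2 * δ * ν) + 2 * σ * a ^ (-(2 * γ)) *
          ((τ - t) ^ (2 * γ - 5 / 2 + 1) / (-(2 * γ - 5 / 2 + 1))) := by
        rw [integral_add (hFi.div_const _)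
          (((intervalIntegrable_iff_integrableOn_Ioc_of_le hrt).1 p1).const_mul _),
          integral_div, integral_const_mul]
        have h5 : ∫ s in Ioc r t, ‖F1 s‖ ^ 2 ≤ I := by
          rw [hI, intervalIntegral.integral_of_le (by linarith [hr0.1] : (0 : ℝ) ≤ T)]
          exact setIntegral_mono_set hF2 (Eventually.of_forall fun s => by positivity)
            (Ioc_subset_Ioc hr0.1.le htT).eventuallyLE
        have h6 : ∫ s in Ioc r t, (τ - s) ^ (2 * γ - 5 / 2)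
            ≤ (τ - t) ^ (2 * γ - 5 / 2 + 1) / (-(2 * γ - 5 / 2 + 1)) := by
          rw [← intervalIntegral.integral_of_le hrt]
          exact p2
        have h7 : 0 ≤ 2 * σ * a ^ (-(2 * γ)) := by positivity
        gcongr
      rw [intervalIntegral.integral_of_le hrt]
      refine le_trans (integral_mono_of_nonneg ?_ i1 ?_) hs1
      · filter_upwards [ae_restrict_mem measurableSet_Ioc] with s hs
        have hps : 0 < τ - s := by linarith [hs.2]
        have := Real.rpow_nonneg hps.le (-(5 / 2) : ℝ)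
        have h8 := (Real.exp_pos (-∫ x in r..s, 2 * (γ / (τ - x) + Λ x))).le
        simp only [Pi.zero_apply]
        positivity
      · filter_upwards [ae_restrict_mem measurableSet_Ioc] with s hs
        have hsI : s ∈ Ico r τ := ⟨hs.1.le, hs.2.trans_lt htI.2⟩
        have hps : 0 < τ - s := by linarith [hs.2]
        have k1 := hE3 s hsI
        have k2 := hE2 s hsI
        have k0 := (Real.exp_pos (-∫ x in r..s, 2 * (γ / (τ - x) + Λ x))).le
        have e1 : (τ - s) ^ (2 * γ - 5 / 2) = (τ - s) ^ (2 * γ) * (τ - s) ^ (-(5 / 2) : ℝ) := by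
          rw [← Real.rpow_add hps]; congr 1
        have n1 : 0 ≤ ‖F1 s‖ ^ 2 / (2 * δ * ν) := by positivity
        have n2 : 0 ≤ 2 * (σ * (τ - s) ^ (-(5 / 2) : ℝ)) := by
          have := Real.rpow_nonneg hps.le (-(5 / 2) : ℝ)
          positivity
        rw [e1, mul_add]
        have m1 := mul_le_mul_of_nonneg_right k1 n1
        have m2 := mul_le_mul_of_nonneg_right k2 n2
        calc _ ≤ 1 * (‖F1 s‖ ^ 2 / (2 * δ * ν)) + a ^ (-(2 * γ)) * (τ - s) ^ (2 * γ)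
              * (2 * (σ * (τ - s) ^ (-(5 / 2) : ℝ))) := add_le_add m1 m2
          _ = _ := by ring
    have e5 : -(2 * γ - 5 / 2 + 1) = 3 / 2 - 2 * γ := by ring
    have e6 : 2 * γ - 5 / 2 + 1 = 2 * γ + -(3 / 2) := by ring
    rw [e5, e6, Real.rpow_add hp] at hJ
    have hE := hE1 t htI
    have hn : 0 ≤ C0 + 2 * σ * a ^ (-(2 * γ)) *
        ((τ - t) ^ (2 * γ) * (τ - t) ^ (-(3 / 2) : ℝ) / (3 / 2 - 2 * γ)) := by
      have := Real.rpow_nonneg hp.le (-(3 / 2) : ℝ)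
      have := Real.rpow_nonneg hp.le (2 * γ)
      have := Real.rpow_nonneg ha0.le (-(2 * γ))
      positivity
    calc ‖v1 t‖ ^ 2 ≤ _ := ht
      _ ≤ Real.exp (∫ s in r..t, 2 * (γ / (τ - s) + Λ s)) * (C0 + 2 * σ * a ^ (-(2 * γ)) *
        ((τ - t) ^ (2 * γ) * (τ - t) ^ (-(3 / 2) : ℝ) / (3 / 2 - 2 * γ))) := by
          refine mul_le_mul_of_nonneg_left ?_ (Real.exp_pos _).le
          rw [hC0]; linarith
      _ ≤ 2 * (a ^ (2 * γ) * (τ - t) ^ (-(2 * γ))) * (C0 + 2 * σ * a ^ (-(2 * γ)) *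
        ((τ - t) ^ (2 * γ) * (τ - t) ^ (-(3 / 2) : ℝ) / (3 / 2 - 2 * γ))) :=
          mul_le_mul_of_nonneg_right hE hn
      _ = _ := by
          have q1 : a ^ (2 * γ) * a ^ (-(2 * γ)) = 1 := by
            rw [← Real.rpow_add ha0]; simp
          have q2 : (τ - t) ^ (-(2 * γ)) * (τ - t) ^ (2 * γ) = 1 := by
            rw [← Real.rpow_add hp]; simp
          calc _ = 2 * C0 * a ^ (2 * γ) * (τ - t) ^ (-(2 * γ))
              + (a ^ (2 * γ) * a ^ (-(2 * γ))) * ((τ - t) ^ (-(2 * γ)) * (τ - t) ^ (2 * γ))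
                * (4 * σ / (3 / 2 - 2 * γ) * (τ - t) ^ (-(3 / 2) : ℝ)) := by ring
            _ = _ := by rw [q1, q2]; ring
  -- near the singular time
  set κ2 := κ₀ ^ 2 * ν ^ (5 / 2 : ℝ) with hκ2
  have hν52 : 0 < ν ^ (5 / 2 : ℝ) := Real.rpow_pos_of_pos hν _
  have hκ20 : 0 < κ2 := by positivity
  have hlim : Tendsto (fun t => 2 * C0 * a ^ (2 * γ) * (τ - t) ^ (3 / 2 - 2 * γ)) (𝓝[<] τ)
      (𝓝 0) := by
    have h1 : Tendsto (fun t : ℝ => τ - t) (𝓝[<] τ) (𝓝 0) := by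
      have : Tendsto (fun t : ℝ => τ - t) (𝓝 τ) (𝓝 (τ - τ)) :=
        (continuous_const.sub continuous_id).tendsto τ
      rw [sub_self] at this
      exact this.mono_left nhdsWithin_le_nhds
    have h2 := (h1.rpow_const (p := 3 / 2 - 2 * γ) (Or.inr hq.le)).const_mul
      (2 * C0 * a ^ (2 * γ))
    rw [Real.zero_rpow hq.ne', mul_zero] at h2
    exact h2
  have hev := hlim.eventually (gt_mem_nhds (show (0 : ℝ) < κ2 / 2 by positivity))
  rw [eventually_nhdsWithin_iff] at hev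
  obtain ⟨ε, hε, hball⟩ := Metric.eventually_nhds_iff.1 hev
  refine hrate (max r (τ - ε)) (max_lt hr.2 (by linarith)) ?_
  have hss : Ioo (max r (τ - ε)) τ ⊆ Ioo r τ := Ioo_subset_Ioo_left (le_max_left _ _)
  filter_upwards [ae_mono (Measure.restrict_mono hss le_rfl) hbound,
    ae_restrict_mem measurableSet_Ioo] with t h1 h2
  have hp : 0 < τ - t := by linarith [h2.2]
  have hlt : τ - ε < t := (le_max_right _ _).trans_lt h2.1
  have h3 := hball (y := t) (by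
    rw [Real.dist_eq, abs_of_neg (by linarith)]
    linarith) h2.2
  have h4 : (τ - t) ^ (-(2 * γ)) = (τ - t) ^ (3 / 2 - 2 * γ) * (τ - t) ^ (-(3 / 2) : ℝ) := by
    rw [← Real.rpow_add hp]; congr 1; ring
  have hpm : 0 < (τ - t) ^ (-(3 / 2) : ℝ) := Real.rpow_pos_of_pos hp _
  have h5 : ‖v1 t‖ ^ 2 ≤ κ2 * (τ - t) ^ (-(3 / 2) : ℝ) := by
    refine h1.trans ?_
    rw [h4, ← mul_assoc]
    have h6 : 4 * σ / (3 / 2 - 2 * γ) ≤ κ2 / 2 := by
      rw [div_le_iff₀ hq]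
      linarith
    have h7 := mul_le_mul_of_nonneg_right h3.le hpm.le
    have h8 := mul_le_mul_of_nonneg_right h6 hpm.le
    calc _ ≤ κ2 / 2 * (τ - t) ^ (-(3 / 2) : ℝ) + κ2 / 2 * (τ - t) ^ (-(3 / 2) : ℝ) :=
          add_le_add h7 h8
      _ = _ := by ring
  have h9 : κ2 * (τ - t) ^ (-(3 / 2) : ℝ)
      = (κ₀ * ν ^ (5 / 4 : ℝ) * (τ - t) ^ (-(3 / 4) : ℝ)) ^ 2 := by
    rw [mul_pow, mul_pow, ← Real.rpow_natCast (ν ^ (5 / 4 : ℝ)), ← Real.rpow_mul hν.le,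
      ← Real.rpow_natCast ((τ - t) ^ (-(3 / 4) : ℝ)), ← Real.rpow_mul hp.le, hκ2]
    norm_num
  rw [h9] at h5
  have h10 : 0 ≤ κ₀ * ν ^ (5 / 4 : ℝ) * (τ - t) ^ (-(3 / 4) : ℝ) := by
    have := Real.rpow_nonneg hp.le (-(3 / 4) : ℝ)
    have := Real.rpow_nonneg hν.le (5 / 4 : ℝ)
    positivity
  exact (pow_le_pow_iff_left₀ (norm_nonneg _) h10 (by norm_num)).mp h5

end Pool.Agent.N327.AC
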