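import Pool.Agent.N327.AC.Space
import Pool.Agent.N327.AC.Core

/-!
The energy production of the time derivative: all the bounds together.
-/

set_option autoImplicit false
set_option linter.unusedSectionVars false

open MeasureTheory Set Filter Topology
open scoped InnerProductSpace ENNReal ContDiff NNReal

namespace Pool.Agent.N327.AC

open H772R2.NS Pool.Agent.TH301.EQ
open Pool.Agent.R462.HC (FB)

variable {Ω : Set E3}

/-- the bound of the trilinear form -/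
theorem comb (hΩ : MeasurableSet Ω) {p q : L2V Ω × L2M Ω} (hp : p ∈ graphW Ω)
    (hq : q ∈ graphW Ω) {W : E3 → ℝ} (hW : FB Ω W) {w g : E3 → ℝ}
    (hw : AEStronglyMeasurable w (volume.restrict Ω))
    (hg : AEStronglyMeasurable g (volume.restrict Ω)) {b : ℝ≥0∞} {κ B Bw G : ℝ} (hb : 3 ≤ b)
    (hκ : 0 ≤ κ) (hB : 0 ≤ B) (hBw : 0 ≤ Bw) (hG : 0 ≤ G)
    (hwB : eLpNorm w b (volume.restrict Ω) ≤ ENNReal.ofReal Bw)
    (hgG : eLpNorm g 2 (volume.restrict Ω) ≤ ENNReal.ofReal G)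
    (hle : ∀ᵐ x ∂(volume.restrict Ω), ⟪crl (p.2 x), cr (p.1 x) (q.1 x)⟫_ℝ
      ≤ ‖crl (p.2 x)‖ * ((κ * Real.sqrt (W x) + B + w x) * ‖p.1 x‖ + g x)) :
    -⟪tensL p.1, q.2⟫_ℝ ≤ ‖p.2‖ * (κ * ‖p.2‖ + B * ‖p.1‖
      + Bw * (‖p.1‖ ^ (1 - (3 / b).toReal) * ((CS : ℝ) * ‖p.2‖) ^ (3 / b).toReal) + G) := by
  set θ := (3 / b).toReal with hθ
  have hθ0 : 0 ≤ θ := ENNReal.toReal_nonneg
  have hθ1 : θ ≤ 1 := by
    have h1 : (3 : ℝ≥0∞) / b ≤ 1 := by
      rcases eq_or_ne b ⊤ with h | h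
      · rw [h]; simp
      · rw [ENNReal.div_le_iff (by
          intro h0
          rw [h0] at hb
          simp at hb) h, one_mul]
        exact hb
    have := ENNReal.toReal_mono (by simp) h1
    rwa [ENNReal.toReal_one] at this
  have hvm : AEStronglyMeasurable (fun x => ‖p.1 x‖) (volume.restrict Ω) :=
    (Lp.aestronglyMeasurable p.1).norm
  have hWm : AEStronglyMeasurable (fun x => Real.sqrt (W x)) (volume.restrict Ω) :=
    (Real.continuous_sqrt.measurable.comp_aemeasurable hW.meas).aestronglyMeasurable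
  -- the four parts
  set f1 : E3 → ℝ := fun x => κ * (Real.sqrt (W x) * ‖p.1 x‖) with hf1
  set f2 : E3 → ℝ := fun x => B * ‖p.1 x‖ with hf2
  set f3 : E3 → ℝ := fun x => w x * ‖p.1 x‖ with hf3
  have m1 : AEStronglyMeasurable f1 (volume.restrict Ω) := (hWm.mul hvm).const_mul κ
  have m2 : AEStronglyMeasurable f2 (volume.restrict Ω) := hvm.const_mul B
  have m3 : AEStronglyMeasurable f3 (volume.restrict Ω) := hw.mul hvm
  have n1 : eLpNorm f1 2 (volume.restrict Ω) ≤ ENNReal.ofReal (κ * ‖p.2‖) := by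
    have e : f1 = κ • fun x => Real.sqrt (W x) * ‖p.1 x‖ := rfl
    rw [e, eLpNorm_const_smul, ENNReal.ofReal_mul hκ, Real.enorm_eq_ofReal hκ, ofReal_norm]
    gcongr
    exact hardy_le hW hp
  have n2 : eLpNorm f2 2 (volume.restrict Ω) ≤ ENNReal.ofReal (B * ‖p.1‖) := by
    have e : f2 = B • fun x => ‖p.1 x‖ := rfl
    rw [e, eLpNorm_const_smul, ENNReal.ofReal_mul hB, Real.enorm_eq_ofReal hB, ofReal_norm,
      eLpNorm_norm, Lp.enorm_def]
  have n3 : eLpNorm f3 2 (volume.restrict Ω)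
      ≤ ENNReal.ofReal (Bw * (‖p.1‖ ^ (1 - θ) * ((CS : ℝ) * ‖p.2‖) ^ θ)) := by
    have h1 := prod_le (μ := volume.restrict Ω) hw (Lp.aestronglyMeasurable p.1) hb hθ
    have h6 := six_le hΩ hp
    have h2 : eLpNorm f3 2 (volume.restrict Ω)
        ≤ ENNReal.ofReal Bw * (‖p.1‖ₑ ^ (1 - θ) * ((CS : ℝ≥0∞) * ‖p.2‖ₑ) ^ θ) := by
      refine h1.trans ?_
      gcongr
      rw [Lp.enorm_def]
    refine h2.trans (le_of_eq ?_)
    rw [ENNReal.ofReal_mul hBw, ENNReal.ofReal_mul (by positivity),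
      ← ENNReal.ofReal_rpow_of_nonneg (norm_nonneg _) (by linarith),
      ← ENNReal.ofReal_rpow_of_nonneg (by positivity) hθ0, ENNReal.ofReal_mul (by positivity),
      ofReal_norm, ofReal_norm, ENNReal.ofReal_coe_nnreal]
  have hsum : eLpNorm (fun x => (κ * Real.sqrt (W x) + B + w x) * ‖p.1 x‖ + g x) 2
      (volume.restrict Ω) ≤ ENNReal.ofReal (κ * ‖p.2‖ + B * ‖p.1‖
      + Bw * (‖p.1‖ ^ (1 - θ) * ((CS : ℝ) * ‖p.2‖) ^ θ) + G) := by
    have e : (fun x => (κ * Real.sqrt (W x) + B + w x) * ‖p.1 x‖ + g x)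
        = ((f1 + f2) + f3) + g := by
      funext x
      simp only [Pi.add_apply, hf1, hf2, hf3]
      ring
    rw [e]
    have q0 : 0 ≤ κ * ‖p.2‖ := by positivity
    have q1 : 0 ≤ B * ‖p.1‖ := by positivity
    have q2 : 0 ≤ Bw * (‖p.1‖ ^ (1 - θ) * ((CS : ℝ) * ‖p.2‖) ^ θ) := by positivity
    calc eLpNorm (((f1 + f2) + f3) + g) 2 (volume.restrict Ω)
        ≤ eLpNorm ((f1 + f2) + f3) 2 (volume.restrict Ω) + eLpNorm g 2 (volume.restrict Ω) :=
          eLpNorm_add_le ((m1.add m2).add m3) hg (by norm_num)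
      _ ≤ (eLpNorm (f1 + f2) 2 (volume.restrict Ω) + eLpNorm f3 2 (volume.restrict Ω))
          + eLpNorm g 2 (volume.restrict Ω) := by
          gcongr
          exact eLpNorm_add_le (m1.add m2) m3 (by norm_num)
      _ ≤ ((eLpNorm f1 2 (volume.restrict Ω) + eLpNorm f2 2 (volume.restrict Ω))
          + eLpNorm f3 2 (volume.restrict Ω)) + eLpNorm g 2 (volume.restrict Ω) := by
          gcongr
          exact eLpNorm_add_le m1 m2 (by norm_num)
      _ ≤ ((ENNReal.ofReal (κ * ‖p.2‖) + ENNReal.ofReal (B * ‖p.1‖))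
          + ENNReal.ofReal (Bw * (‖p.1‖ ^ (1 - θ) * ((CS : ℝ) * ‖p.2‖) ^ θ)))
          + ENNReal.ofReal G := by gcongr
      _ = _ := by
          rw [← ENNReal.ofReal_add q0 q1, ← ENNReal.ofReal_add (by positivity) q2,
            ← ENNReal.ofReal_add (by positivity) hG]
  have hm : AEStronglyMeasurable (fun x => (κ * Real.sqrt (W x) + B + w x) * ‖p.1 x‖ + g x)
      (volume.restrict Ω) :=
    (((hWm.const_mul κ).add aestronglyMeasurable_const).add hw).mul hvm |>.add hg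
  exact tri_bound hΩ hp hq hm (by positivity) hsum hle

/-- Young's inequality -/
theorem young {A D V θ ε : ℝ} (hA : 0 ≤ A) (hD : 0 ≤ D) (hV : 0 ≤ V) (hθ0 : 0 ≤ θ) (hθ1 : θ < 1)
    (hε : 0 < ε) : D * (A * (V ^ (1 - θ) * D ^ θ)) ≤ ε * D ^ 2
      + A ^ (2 / (1 - θ)) * ε ^ (-((1 + θ) / (1 - θ))) * V ^ 2 := by
  set s := (1 - θ) / 2 with hs
  have hs0 : 0 < s := by rw [hs]; linarith
  have hs1 : 0 < 1 - s := by rw [hs]; linarith
  set P := A ^ (2 / (1 - θ)) * ε ^ (-((1 + θ) / (1 - θ))) * V ^ 2 with hP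
  set Q := ε * D ^ 2 with hQ
  have hP0 : 0 ≤ P := by positivity
  have hQ0 : 0 ≤ Q := by positivity
  have h1θ : 1 - θ ≠ 0 := by linarith
  have key := Real.geom_mean_le_arith_mean2_weighted hs0.le hs1.le hP0 hQ0 (by ring)
  have e1 : P ^ s = A * ε ^ (-(1 - s)) * V ^ (1 - θ) := by
    rw [hP, Real.mul_rpow (by positivity) (by positivity), Real.mul_rpow (by positivity)
      (by positivity), ← Real.rpow_mul hA, ← Real.rpow_mul hε.le, ← Real.rpow_natCast V,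
      ← Real.rpow_mul hV]
    have a1 : 2 / (1 - θ) * s = 1 := by rw [hs]; field_simp
    have a2 : -((1 + θ) / (1 - θ)) * s = -(1 - s) := by rw [hs]; field_simp; ring
    have a3 : ((2 : ℕ) : ℝ) * s = 1 - θ := by rw [hs]; push_cast; ring
    rw [a1, a2, a3, Real.rpow_one]
  have e2 : Q ^ (1 - s) = ε ^ (1 - s) * (D * D ^ θ) := by
    rw [hQ, Real.mul_rpow hε.le (by positivity), ← Real.rpow_natCast D, ← Real.rpow_mul hD]
    have a3 : ((2 : ℕ) : ℝ) * (1 - s) = 1 + θ := by rw [hs]; push_cast; ring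
    rw [a3]
    congr 1
    rcases eq_or_lt_of_le hD with h | h
    · rw [← h, Real.zero_rpow (by linarith), zero_mul]
    · rw [Real.rpow_add h, Real.rpow_one]
  have e3 : P ^ s * Q ^ (1 - s) = D * (A * (V ^ (1 - θ) * D ^ θ)) := by
    rw [e1, e2]
    have a4 : ε ^ (-(1 - s)) * ε ^ (1 - s) = 1 := by
      rw [← Real.rpow_add hε]; simp
    calc _ = (ε ^ (-(1 - s)) * ε ^ (1 - s)) * (D * (A * (V ^ (1 - θ) * D ^ θ))) := by ring
      _ = _ := by rw [a4, one_mul]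
  rw [e3] at key
  refine key.trans ?_
  have : s * P ≤ P := by nlinarith
  have : (1 - s) * Q ≤ Q := by nlinarith
  linarith

/-- the bound of the trilinear form, after Young's inequality -/
theorem comb2 (hΩ : MeasurableSet Ω) {p q : L2V Ω × L2M Ω} (hp : p ∈ graphW Ω)
    (hq : q ∈ graphW Ω) {W : E3 → ℝ} (hW : FB Ω W) {w g : E3 → ℝ}
    (hw : AEStronglyMeasurable w (volume.restrict Ω))
    (hg : AEStronglyMeasurable g (volume.restrict Ω)) {b : ℝ≥0∞} {ν θ B Bw G μ ε : ℝ}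
    (hb : 3 ≤ b) (hb1 : (3 / b).toReal < 1)
    (hν : 0 < ν) (hθ : 0 ≤ θ) (hB : 0 ≤ B) (hBw : 0 ≤ Bw) (hG : 0 ≤ G) (hμ : 0 < μ) (hε : 0 < ε)
    (hwB : eLpNorm w b (volume.restrict Ω) ≤ ENNReal.ofReal Bw)
    (hgG : eLpNorm g 2 (volume.restrict Ω) ≤ ENNReal.ofReal G)
    (hle : ∀ᵐ x ∂(volume.restrict Ω), ⟪crl (p.2 x), cr (p.1 x) (q.1 x)⟫_ℝ
      ≤ ‖crl (p.2 x)‖ * ((θ * ν * Real.sqrt (W x) + B + w x) * ‖p.1 x‖ + g x)) :
    -⟪tensL p.1, q.2⟫_ℝ ≤ (θ + μ + 2 * ε) * ν * ‖p.2‖ ^ 2 + (B ^ 2 / (4 * μ * ν)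
      + ((CS : ℝ) ^ (3 / b).toReal) ^ (2 / (1 - (3 / b).toReal))
        * (ε * ν) ^ (-((1 + (3 / b).toReal) / (1 - (3 / b).toReal)))
        * Bw ^ (2 / (1 - (3 / b).toReal))) * ‖p.1‖ ^ 2 + G ^ 2 / (4 * ε * ν) := by
  have h := comb hΩ hp hq hW hw hg hb (mul_nonneg hθ hν.le) hB hBw hG hwB hgG hle
  set s := (3 / b).toReal with hs
  have hs0 : 0 ≤ s := ENNReal.toReal_nonneg
  set D := ‖p.2‖ with hD
  set V := ‖p.1‖ with hV
  have hD0 : 0 ≤ D := norm_nonneg _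
  have hV0 : 0 ≤ V := norm_nonneg _
  have hC : (0 : ℝ) ≤ CS := NNReal.coe_nonneg _
  have y := young (A := Bw * (CS : ℝ) ^ s) (D := D) (V := V) (θ := s) (ε := ε * ν)
    (by positivity) hD0 hV0 hs0 hb1 (by positivity)
  have e1 : Bw * (V ^ (1 - s) * ((CS : ℝ) * D) ^ s) = Bw * (CS : ℝ) ^ s * (V ^ (1 - s) * D ^ s) := by
    rw [Real.mul_rpow hC hD0]; ring
  have e2 : (Bw * (CS : ℝ) ^ s) ^ (2 / (1 - s))
      = ((CS : ℝ) ^ s) ^ (2 / (1 - s)) * Bw ^ (2 / (1 - s)) := by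
    rw [Real.mul_rpow hBw (by positivity)]; ring
  rw [e1] at h
  rw [e2] at y
  have y2 : D * (B * V) ≤ μ * ν * D ^ 2 + B ^ 2 / (4 * μ * ν) * V ^ 2 := by
    have : 0 ≤ (2 * μ * ν * D - B * V) ^ 2 / (4 * μ * ν) := by positivity
    have e : (2 * μ * ν * D - B * V) ^ 2 / (4 * μ * ν)
        = μ * ν * D ^ 2 - D * (B * V) + B ^ 2 / (4 * μ * ν) * V ^ 2 := by field_simp; ring
    linarith
  have y3 : D * G ≤ ε * ν * D ^ 2 + G ^ 2 / (4 * ε * ν) := by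
    have : 0 ≤ (2 * ε * ν * D - G) ^ 2 / (4 * ε * ν) := by positivity
    have e : (2 * ε * ν * D - G) ^ 2 / (4 * ε * ν)
        = ε * ν * D ^ 2 - D * G + G ^ 2 / (4 * ε * ν) := by field_simp; ring
    linarith
  calc -⟪tensL p.1, q.2⟫_ℝ ≤ D * (θ * ν * D + B * V + Bw * (CS : ℝ) ^ s * (V ^ (1 - s) * D ^ s)
        + G) := h
    _ = θ * ν * D ^ 2 + D * (B * V) + D * (Bw * (CS : ℝ) ^ s * (V ^ (1 - s) * D ^ s)) + D * G := by
        ring
    _ ≤ θ * ν * D ^ 2 + (μ * ν * D ^ 2 + B ^ 2 / (4 * μ * ν) * V ^ 2)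
        + (ε * ν * D ^ 2 + ((CS : ℝ) ^ s) ^ (2 / (1 - s)) * Bw ^ (2 / (1 - s))
          * (ε * ν) ^ (-((1 + s) / (1 - s))) * V ^ 2)
        + (ε * ν * D ^ 2 + G ^ 2 / (4 * ε * ν)) := by linarith
    _ = _ := by ring

end Pool.Agent.N327.AC
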