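import Pool.Agent.R462.HC.Hardy
import Pool.Agent.Y303.RA.Conc

/-!
The trilinear form in terms of the curl and the vector product, and its bounds.
-/

set_option autoImplicit false
set_option linter.unusedSectionVars false

open MeasureTheory Set Filter Topology
open scoped InnerProductSpace ENNReal ContDiff NNReal

namespace Pool.Agent.N327.AC

open H772R2.NS Pool.Agent.TH301.EQ
open Pool.Agent.Y303.RA (trn trn_apply trL trL_coe inner_trL_zero)
open Pool.Agent.R462.HC (FB form_scalar NN JJ NN_eq JJ_eq JJ_nonneg NN_nonneg)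

variable {Ω : Set E3}

/-- the curl from the Jacobian matrix -/
noncomputable def crl (A : M3) : E3 :=
  WithLp.toLp 2 ![A (2, 1) - A (1, 2), A (0, 2) - A (2, 0), A (1, 0) - A (0, 1)]

/-- the vector product -/
noncomputable def cr (a b : E3) : E3 :=
  WithLp.toLp 2 ![a 1 * b 2 - a 2 * b 1, a 2 * b 0 - a 0 * b 2, a 0 * b 1 - a 1 * b 0]

theorem inner_alt (A : M3) (a b : E3) : ⟪A, alt a b⟫_ℝ = -⟪crl A, cr a b⟫_ℝ := by
  rw [inner_M3, inner_E3]
  simp only [Fin.sum_univ_three, alt_apply, crl, cr, Matrix.cons_val_zero, Matrix.cons_val_one,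
    Matrix.cons_val]
  ring

theorem norm_crl (A : M3) : ‖crl A‖ ^ 2 = ‖A‖ ^ 2 - ⟪trn A, A⟫_ℝ := by
  rw [norm_sq_E3, norm_sq_M3, inner_M3]
  simp only [Fin.sum_univ_three, trn_apply, crl, Matrix.cons_val_zero, Matrix.cons_val_one,
    Matrix.cons_val]
  ring

theorem norm_cr (a b : E3) : ‖cr a b‖ ^ 2 = ‖a‖ ^ 2 * ‖b‖ ^ 2 - ⟪a, b⟫_ℝ ^ 2 := by
  rw [norm_sq_E3, norm_sq_E3, norm_sq_E3, inner_E3]
  simp only [Fin.sum_univ_three, cr, Matrix.cons_val_zero, Matrix.cons_val_one,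
    Matrix.cons_val]
  ring

theorem crl_cont : Continuous crl := by
  unfold crl
  refine (PiLp.continuous_toLp 2 _).comp ?_
  refine continuous_pi fun i => ?_
  have h : ∀ p : Fin 3 × Fin 3, Continuous fun A : M3 => A p := fun p =>
    (EuclideanSpace.proj (𝕜 := ℝ) p : M3 →L[ℝ] ℝ).continuous
  fin_cases i
  · exact (h _).sub (h _)
  · exact (h _).sub (h _)
  · exact (h _).sub (h _)

theorem norm_crl_le (A : M3) : ‖crl A‖ ≤ 2 * ‖A‖ := by
  have h1 := norm_crl A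
  have h2 : -⟪trn A, A⟫_ℝ ≤ ‖A‖ ^ 2 := by
    have h3 : ‖trn A‖ = ‖A‖ := by
      have : ‖trn A‖ ^ 2 = ‖A‖ ^ 2 := by
        rw [norm_sq_M3, norm_sq_M3, Finset.sum_comm]
        rfl
      exact (pow_left_inj₀ (norm_nonneg _) (norm_nonneg _) (by norm_num)).1 this
    have h4 := abs_real_inner_le_norm (trn A) A
    rw [h3, ← sq] at h4
    linarith [neg_abs_le ⟪trn A, A⟫_ℝ]
  have h5 : ‖crl A‖ ^ 2 ≤ (2 * ‖A‖) ^ 2 := by nlinarith [sq_nonneg ‖A‖]
  exact (abs_le_of_sq_le_sq' h5 (by positivity)).2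

/-- the curl of an element of `L²` is in `L²` -/
theorem memLp_crl (z : L2M Ω) : MemLp (fun x => ‖crl (z x)‖) 2 (volume.restrict Ω) := by
  refine MemLp.of_le_mul (c := 2) (Lp.memLp z)
    ((crl_cont.comp_aestronglyMeasurable (Lp.aestronglyMeasurable z)).norm) ?_
  refine Eventually.of_forall fun x => ?_
  rw [norm_norm]
  exact norm_crl_le _

/-- `‖curl v‖ = ‖∇v‖` on `H¹_{0,σ}` -/
theorem int_crl {p : L2V Ω × L2M Ω} (hp : p ∈ graphW Ω) :
    ∫ x in Ω, ‖crl (p.2 x)‖ ^ 2 = ‖p.2‖ ^ 2 := by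
  have h0 := inner_trL_zero hp
  rw [L2.inner_def] at h0
  have h1 : ∫ x in Ω, ⟪trn (p.2 x), p.2 x⟫_ℝ = 0 := by
    rw [← h0]
    refine integral_congr_ae ?_
    filter_upwards [trL_coe p.2] with x hx
    rw [hx]
  have h2 : ‖p.2‖ ^ 2 = ∫ x in Ω, ‖p.2 x‖ ^ 2 := by
    rw [← real_inner_self_eq_norm_sq, L2.inner_def]
    refine integral_congr_ae (Eventually.of_forall fun x => ?_)
    simp only
    rw [real_inner_self_eq_norm_sq]
  have i1 : Integrable (fun x => ‖p.2 x‖ ^ 2) (volume.restrict Ω) :=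
    (memLp_two_iff_integrable_sq_norm (Lp.aestronglyMeasurable p.2)).mp (Lp.memLp p.2)
  have i2 : Integrable (fun x => ⟪trn (p.2 x), p.2 x⟫_ℝ) (volume.restrict Ω) := by
    refine (L2.integrable_inner (𝕜 := ℝ) (trL Ω p.2) p.2).congr ?_
    filter_upwards [trL_coe p.2] with x hx
    rw [hx]
  have h3 : ∫ x in Ω, ‖crl (p.2 x)‖ ^ 2 = ∫ x in Ω, (‖p.2 x‖ ^ 2 - ⟪trn (p.2 x), p.2 x⟫_ℝ) :=
    integral_congr_ae (Eventually.of_forall fun x => norm_crl _)
  rw [h3, integral_sub i1 i2, h1, h2, sub_zero]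

/-- `-∫ v·(v·∇)u = ∫ curl v·(v × u)` -/
theorem tri_crl (hΩ : MeasurableSet Ω) {p q : L2V Ω × L2M Ω} (hp : p ∈ graphW Ω)
    (hq : q ∈ graphW Ω) : Integrable (fun x => ⟪crl (p.2 x), cr (p.1 x) (q.1 x)⟫_ℝ)
      (volume.restrict Ω) ∧
    -⟪tensL p.1, q.2⟫_ℝ = ∫ x in Ω, ⟪crl (p.2 x), cr (p.1 x) (q.1 x)⟫_ℝ := by
  have e : (fun x => ⟪(p.2 : E3 → M3) x, (altL p.1 q.1 : E3 → M3) x⟫_ℝ)
      =ᵐ[volume.restrict Ω] fun x => -⟪crl (p.2 x), cr (p.1 x) (q.1 x)⟫_ℝ := by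
    filter_upwards [altL_coe hΩ hp hq] with x hx
    rw [hx, inner_alt]
  have i1 := (L2.integrable_inner (𝕜 := ℝ) p.2 (altL p.1 q.1)).congr e
  refine ⟨by simpa using i1.neg, ?_⟩
  rw [identity hΩ hp hq, real_inner_comm, L2.inner_def, integral_congr_ae e, integral_neg, neg_neg]

/-- the bound of the trilinear form by a bound of the triple product -/
theorem tri_bound (hΩ : MeasurableSet Ω) {p q : L2V Ω × L2M Ω} (hp : p ∈ graphW Ω)
    (hq : q ∈ graphW Ω) {h : E3 → ℝ} (hm : AEStronglyMeasurable h (volume.restrict Ω)) {B : ℝ}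
    (hB : 0 ≤ B)
    (hh : eLpNorm h 2 (volume.restrict Ω) ≤ ENNReal.ofReal B)
    (hle : ∀ᵐ x ∂(volume.restrict Ω),
      ⟪crl (p.2 x), cr (p.1 x) (q.1 x)⟫_ℝ ≤ ‖crl (p.2 x)‖ * h x) :
    -⟪tensL p.1, q.2⟫_ℝ ≤ ‖p.2‖ * B := by
  obtain ⟨i1, e1⟩ := tri_crl hΩ hp hq
  have hmem : MemLp h 2 (volume.restrict Ω) := ⟨hm, hh.trans_lt ENNReal.ofReal_lt_top⟩
  have hc := memLp_crl p.2
  set a := hc.toLp with ha
  set b := hmem.toLp with hb
  have i2 : Integrable (fun x => ‖crl (p.2 x)‖ * h x) (volume.restrict Ω) :=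
    hc.integrable_mul hmem
  have e2 : ∫ x in Ω, ‖crl (p.2 x)‖ * h x = ⟪b, a⟫_ℝ := by
    rw [L2.inner_def]
    refine integral_congr_ae ?_
    filter_upwards [hc.coeFn_toLp, hmem.coeFn_toLp] with x h1 h2
    rw [ha, hb, h1, h2]
    rfl
  have na : ‖a‖ = ‖p.2‖ := by
    have h1 : ‖a‖ ^ 2 = ‖p.2‖ ^ 2 := by
      rw [← int_crl hp, ← real_inner_self_eq_norm_sq, L2.inner_def]
      refine integral_congr_ae ?_
      filter_upwards [hc.coeFn_toLp] with x h1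
      rw [ha, h1]
      simp [sq]
    exact (pow_left_inj₀ (norm_nonneg _) (norm_nonneg _) (by norm_num)).1 h1
  have nb : ‖b‖ ≤ B := by
    rw [hb, Lp.norm_toLp]
    exact ENNReal.toReal_le_of_le_ofReal hB hh
  rw [e1]
  calc ∫ x in Ω, ⟪crl (p.2 x), cr (p.1 x) (q.1 x)⟫_ℝ ≤ ∫ x in Ω, ‖crl (p.2 x)‖ * h x :=
        integral_mono_ae i1 i2 hle
    _ = ⟪b, a⟫_ℝ := e2
    _ ≤ ‖b‖ * ‖a‖ := real_inner_le_norm _ _
    _ ≤ B * ‖p.2‖ := by rw [na]; gcongr
    _ = _ := mul_comm _ _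

/-- the Hardy type inequality on `H¹_{0,σ}` -/
theorem hardy_le {W : E3 → ℝ} (hW : FB Ω W) {p : L2V Ω × L2M Ω} (hp : p ∈ graphW Ω) :
    eLpNorm (fun x => Real.sqrt (W x) * ‖p.1 x‖) 2 (volume.restrict Ω) ≤ ‖p.2‖ₑ := by
  have hp' : p ∈ closure (preW Ω : Set (L2V Ω × L2M Ω)) := by
    have := hp
    unfold graphW at this
    rwa [← SetLike.mem_coe, Submodule.topologicalClosure_coe] at this
  obtain ⟨q, hq, hlim⟩ := mem_closure_iff_seq_limit.mp hp'
  have h1 : Tendsto (fun n => (q n).1) atTop (𝓝 p.1) := (continuous_fst.tendsto p).comp hlim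
  have h2 : Tendsto (fun n => (q n).2) atTop (𝓝 p.2) := (continuous_snd.tendsto p).comp hlim
  have hmeas : TendstoInMeasure (volume.restrict Ω) (fun n => ((q n).1 : E3 → E3)) atTop p.1 :=
    tendstoInMeasure_of_tendsto_Lp h1
  obtain ⟨ns, hns, hae⟩ := hmeas.exists_seq_tendsto_ae
  have hns' := hns.tendsto_atTop
  have hbd : ∀ n, eLpNorm (fun x => Real.sqrt (W x) * ‖(q n).1 x‖) 2 (volume.restrict Ω)
      ≤ ‖(q n).2‖ₑ := by
    intro n
    obtain ⟨φ, k1, k2, k3⟩ := hq n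
    have e1 : eLpNorm (fun x => Real.sqrt (W x) * ‖(q n).1 x‖) 2 (volume.restrict Ω)
        = eLpNorm (fun x => Real.sqrt (W x) * ‖φ x‖) 2 (volume.restrict Ω) := by
      refine eLpNorm_congr_ae ?_
      filter_upwards [k2] with x hx
      rw [hx]
    have e2 : eLpNorm (fun x => Real.sqrt (W x) * ‖φ x‖) 2 (volume.restrict Ω) ^ 2
        = ∫⁻ x in Ω, ENNReal.ofReal (W x * NN φ x) := by
      rw [← ENNReal.rpow_natCast, eLpNorm_eq_lintegral_rpow_enorm_toReal (by norm_num) (by norm_num),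
        ← ENNReal.rpow_mul]
      norm_num
      refine lintegral_congr fun x => ?_
      rw [Real.enorm_eq_ofReal (by positivity), ← ofReal_norm (φ x),
        ← ENNReal.ofReal_mul (Real.sqrt_nonneg _), ← ENNReal.ofReal_pow (by positivity), mul_pow,
        Real.sq_sqrt (hW.nonneg x), NN_eq]
    have e3 : ‖(q n).2‖ₑ ^ 2 = ENNReal.ofReal (∫ x, JJ φ x) := by
      have h4 := TH340.FF.norm_test2 k1 k3
      have h5 : ‖(q n).2‖ ^ 2 = ∫ x, JJ φ x := h4
      rw [← h5, ← ofReal_norm, ENNReal.ofReal_pow (norm_nonneg _)]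
    rw [e1]
    have h6 := form_scalar hW k1
    rw [← e2, ← e3] at h6
    exact (ENNReal.pow_le_pow_left_iff (by norm_num)).1 h6
  refine le_of_forall_gt (fun c hc => ?_)
  obtain ⟨c', hc'1, hc'2⟩ := exists_between hc
  refine lt_of_le_of_lt ?_ hc'2
  have hR : Tendsto (fun n => ‖(q (ns n)).2‖ₑ) atTop (𝓝 ‖p.2‖ₑ) :=
    (continuous_enorm.tendsto _).comp (h2.comp hns')
  have hev : ∀ᶠ n in atTop, eLpNorm (fun x => Real.sqrt (W x) * ‖(q (ns n)).1 x‖) 2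
      (volume.restrict Ω) ≤ c' := by
    filter_upwards [hR.eventually (gt_mem_nhds hc'1)] with n hn
    exact (hbd (ns n)).trans hn.le
  have hWm : AEStronglyMeasurable (fun x => Real.sqrt (W x)) (volume.restrict Ω) :=
    (Real.continuous_sqrt.measurable.comp_aemeasurable hW.meas).aestronglyMeasurable
  refine Lp.eLpNorm_le_of_ae_tendsto hev
    (fun n => hWm.mul (Lp.aestronglyMeasurable _).norm) ?_
  filter_upwards [hae] with x hx
  exact hx.norm.const_mul _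

end Pool.Agent.N327.AC
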